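import Mathlib

open Finset

namespace H11.APS

/-- The AnyPrice share of an agent with additive valuation `S ↦ ∑ j ∈ S, v j` and entitlement `w`:
the infimum (a minimum), over price vectors `p ≥ 0` of total `1`, of the largest value of a bundle
of price at most `w`. -/
noncomputable def aps {M : Type} [Fintype M] (v : M → ℝ) (w : ℝ) : ℝ :=
  sInf {x | ∃ p : M → ℝ, (∀ j, 0 ≤ p j) ∧ ∑ j, p j = 1 ∧
    IsGreatest {y | ∃ S : Finset M, ∑ j ∈ S, p j ≤ w ∧ y = ∑ j ∈ S, v j} x}

/-- The bundle of agent `i` in the allocation `a` (item `j` goes to agent `a j`). -/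
def bundle {N M : Type} [Fintype M] [DecidableEq N] (a : M → N) (i : N) : Finset M :=
  univ.filter fun j => a j = i

/-- APS-fairness. -/
def APSFair {N M : Type} [Fintype M] [DecidableEq N] (v : N → M → ℝ) (w : N → ℝ) (a : M → N) :
    Prop := ∀ i, aps (v i) (w i) ≤ ∑ j ∈ bundle a i, v i j

/-- Weighted PROP1. -/
def Prop1 {N M : Type} [Fintype M] [DecidableEq N] [DecidableEq M] (v : N → M → ℝ) (w : N → ℝ)
    (a : M → N) : Prop :=
  ∀ i, w i * ∑ j, v i j ≤ ∑ j ∈ bundle a i, v i j ∨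
    ∃ g, g ∉ bundle a i ∧ w i * ∑ j, v i j ≤ ∑ j ∈ insert g (bundle a i), v i j

theorem aps_le {M : Type} [Fintype M] (v : M → ℝ) (w : ℝ) (hw : 0 ≤ w) (p : M → ℝ)
    (h0 : ∀ j, 0 ≤ p j) (h1 : ∑ j, p j = 1) (c : ℝ)
    (h : ∀ S : Finset M, ∑ j ∈ S, p j ≤ w → ∑ j ∈ S, v j ≤ c) : aps v w ≤ c := by
  classical
  obtain ⟨S, hS, hm⟩ := exists_max_image (univ.filter fun S : Finset M => ∑ j ∈ S, p j ≤ w)
    (fun S => ∑ j ∈ S, v j) ⟨∅, by simpa using hw⟩
  have hS' := (mem_filter.1 hS).2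
  refine le_trans (csInf_le ⟨0, ?_⟩ ⟨p, h0, h1, ⟨S, hS', rfl⟩, ?_⟩) (h S hS')
  · rintro x ⟨q, -, -, -, hq⟩
    exact hq ⟨∅, by simpa using hw, by simp⟩
  · rintro y ⟨T, hT, rfl⟩
    exact hm T (by simpa using hT)

end H11.APS

open H11.APS

theorem Pool.Agent.Results.MP_4956c5_co.Counter.result :
    ∃ (w : Fin 2 → ℝ) (v : Fin 2 → Fin 3 → ℝ) (a : Fin 3 → Fin 2),
      (∀ i, 0 < w i) ∧ ∑ i, w i = 1 ∧ (∀ i j, 0 < v i j) ∧ v 0 = v 1 ∧
      APSFair v w a ∧ ¬ Prop1 v w a := by
  have b0 : bundle (![0, 1, 1] : Fin 3 → Fin 2) 0 = {0} := by decide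
  have b1 : bundle (![0, 1, 1] : Fin 3 → Fin 2) 1 = {1, 2} := by decide
  refine ⟨![4 / 5, 1 / 5], fun _ => ![2, 1, 1], ![0, 1, 1], ?_, ?_, ?_, rfl, ?_, ?_⟩
  · intro i; fin_cases i <;> simp
  · simp [Fin.sum_univ_two]; norm_num
  · intro i j; fin_cases j <;> simp
  · have key : ∀ w : ℝ, 0 ≤ w → w ≤ 4 / 5 → aps (![2, 1, 1] : Fin 3 → ℝ) w ≤ 2 := by
      intro w h0 h1
      refine aps_le _ _ h0 ![9 / 10, 1 / 20, 1 / 20] ?_ ?_ _ ?_
      · intro j; fin_cases j <;> simp <;> norm_num
      · simp [Fin.sum_univ_three]; norm_num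
      · intro S hS
        by_cases h : (0 : Fin 3) ∈ S
        · have := single_le_sum (f := (![9 / 10, 1 / 20, 1 / 20] : Fin 3 → ℝ))
            (fun j _ => by fin_cases j <;> simp <;> norm_num) h
          simp at this
          linarith
        · have hs : S ⊆ {1, 2} := by
            intro j hj
            fin_cases j
            · exact absurd hj h
            · simp
            · simp
          refine (sum_le_sum_of_subset_of_nonneg hs fun j _ _ => ?_).trans ?_
          · fin_cases j <;> simp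
          · rw [sum_pair (by decide)]; simp; norm_num
    intro i
    fin_cases i
    · simp only [Fin.zero_eta, b0]
      simpa using key (4 / 5) (by norm_num) le_rfl
    · simp only [Fin.mk_one, b1]
      rw [sum_pair (by decide)]
      have := key (1 / 5) (by norm_num) (by norm_num)
      simp at this ⊢
      linarith
  · intro h
    rcases h 0 with h | ⟨g, hg, h⟩
    · rw [b0] at h
      simp [Fin.sum_univ_three] at h
      norm_num at h
    · rw [b0] at hg h
      rw [sum_insert hg] at h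
      fin_cases g
      · simp at hg
      · simp [Fin.sum_univ_three] at h; norm_num at h
      · simp [Fin.sum_univ_three] at h; norm_num at h
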